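import Pool.Agent.Helper58.TR.Def

/-! [REC] Entropy of the records and of the nodes of the recorded tree: `i log |R|` for the records of the blocks `< i`,
`m` more for the cell of level `m`. -/

set_option autoImplicit false

namespace Pool.Agent.Helper62.FW

open Finset Pool.Agent.Helper69.RK Pool.Agent.Helper61.GL Pool.Agent.Helper58.VW Pool.Agent.Helper58.TR

noncomputable section

variable {Pt Ω β R γ : Type} [Fintype Ω]

theorem mass_nn (μ : Ω → ℝ) (hμ : ∀ ω, 0 ≤ μ ω) : 0 ≤ mass μ := Finset.sum_nonneg fun ω _ => hμ ω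

/-- the cell of level `m` of a number of `[0, 1)` costs `m` bits -/
theorem ch_cl (μ : Ω → ℝ) (hμ : ∀ ω, 0 ≤ μ ω) (T : Ω → ℝ) (g : Ω → γ) (m : ℕ)
    (h0 : ∀ ω, μ ω ≠ 0 → 0 ≤ T ω) (h1 : ∀ ω, μ ω ≠ 0 → T ω < 1) :
    CH μ (fun ω => cl m (T ω)) g ≤ m * mass μ := by
  have h2 := ch_window_le μ hμ T g 0 m (fun ω ω' a b _ => by
    have e1 := cl_mem (l := 0) (h0 ω a) (h1 ω a)
    have e2 := cl_mem (l := 0) (h0 ω' b) (h1 ω' b)
    rw [Finset.mem_Ico, pow_zero] at e1 e2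
    omega)
  rwa [zero_add] at h2

/-- the same for numbers of modulus at most one -/
theorem ch_cl' (μ : Ω → ℝ) (hμ : ∀ ω, 0 ≤ μ ω) (T : Ω → ℝ) (g : Ω → γ) (m : ℕ) (h0 : ∀ ω, μ ω ≠ 0 → |T ω| ≤ 1) :
    CH μ (fun ω => cl m (T ω)) g ≤ (m + 2) * mass μ := by
  have h2 := ch_int μ hμ (fun ω => cl m (T ω)) g (2 * 2 ^ m + 1) (by positivity) (by
    intro ω ω' a b _
    have key : ∀ x : ℝ, |x| ≤ 1 → -(2 : ℝ) ^ m - 1 ≤ (cl m x : ℝ) ∧ (cl m x : ℝ) ≤ 2 ^ m := by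
      intro x hx
      unfold cl
      rw [abs_le] at hx
      have hp : (0 : ℝ) < 2 ^ m := by positivity
      constructor
      · have h3 := Int.lt_floor_add_one ((2 : ℝ) ^ m * x)
        nlinarith [hx.1]
      · have h3 := Int.floor_le ((2 : ℝ) ^ m * x)
        nlinarith [hx.2]
    have k1 := key _ (h0 ω a)
    have k2 := key _ (h0 ω' b)
    rw [abs_le]
    constructor <;> linarith [k1.1, k1.2, k2.1, k2.2])
  refine h2.trans (mul_le_mul_of_nonneg_right ?_ (mass_nn μ hμ))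
  have h3 : (2 : ℝ) * 2 ^ m + 1 + 1 ≤ 2 ^ (m + 2) := by
    have : (1 : ℝ) ≤ 2 ^ m := one_le_pow₀ (by norm_num)
    rw [pow_add]
    linarith
  have h4 := Real.logb_le_logb_of_le (b := 2) (by norm_num) (by positivity) h3
  rw [Real.logb_pow, Real.logb_self_eq_one (by norm_num), mul_one] at h4
  push_cast at h4
  exact h4

variable (E : ℕ → (Pt → Lb β R) → Pt → R) (F : Pt → β) (T : Pt → ℝ) (P : ℕ) (o : ℕ → ℕ)

/-- [REC] the records of the blocks `< i` cost `i log |R|` bits -/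
theorem ch_recs [Fintype R] [Nonempty R] (μ : Ω → ℝ) (hμ : ∀ ω, 0 ≤ μ ω) (p : Ω → Pt) (g : Ω → γ) (i : ℕ) :
    CH μ (fun ω => recs E F T P o i (p ω)) g ≤ i * Real.logb 2 (Fintype.card R) * mass μ := by
  induction i with
  | zero =>
    rw [ch_zero μ _ _ (fun ω ω' _ _ _ => rfl)]
    simp
  | succ i ih =>
    have h1 : CH μ (fun ω => recs E F T P o (i + 1) (p ω)) g ≤
        CH μ (fun ω => (recs E F T P o i (p ω), er E F T P o i (o i) (p ω))) g :=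
      ch_mono μ hμ _ _ _ (fun ω ω' _ _ h _ => by
        rw [Prod.mk.injEq] at h
        exact (recs_succ_eq_iff E F T P o i (p ω) (p ω')).mpr h)
    rw [ch_chain] at h1
    have h2 := st_card μ hμ (fun ω => er E F T P o i (o i) (p ω)) (fun ω => (recs E F T P o i (p ω), g ω))
    push_cast
    have e1 : ((i : ℝ) + 1) * Real.logb 2 (Fintype.card R) * mass μ =
        (i : ℝ) * Real.logb 2 (Fintype.card R) * mass μ + Real.logb 2 (Fintype.card R) * mass μ := by ring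
    rw [e1]
    linarith

/-- the cell and the records -/
theorem ch_cl_recs [Fintype R] [Nonempty R] (μ : Ω → ℝ) (hμ : ∀ ω, 0 ≤ μ ω) (p : Ω → Pt) (g : Ω → γ) (m i : ℕ)
    (h0 : ∀ ω, μ ω ≠ 0 → 0 ≤ T (p ω)) (h1 : ∀ ω, μ ω ≠ 0 → T (p ω) < 1) :
    CH μ (fun ω => (cl m (T (p ω)), recs E F T P o i (p ω))) g ≤
      (m + i * Real.logb 2 (Fintype.card R)) * mass μ := by
  rw [ch_chain]
  have h2 := ch_cl μ hμ (fun ω => T (p ω)) g m h0 h1
  have h3 := ch_recs E F T P o μ hμ p (fun ω => (cl m (T (p ω)), g ω)) i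
  rw [add_mul]
  linarith

theorem ch_cl_recs' [Fintype R] [Nonempty R] (μ : Ω → ℝ) (hμ : ∀ ω, 0 ≤ μ ω) (p : Ω → Pt) (g : Ω → γ) (m i : ℕ)
    (h0 : ∀ ω, μ ω ≠ 0 → |T (p ω)| ≤ 1) :
    CH μ (fun ω => (cl m (T (p ω)), recs E F T P o i (p ω))) g ≤
      (m + 2 + i * Real.logb 2 (Fintype.card R)) * mass μ := by
  rw [ch_chain]
  have h2 := ch_cl' μ hμ (fun ω => T (p ω)) g m h0
  have h3 := ch_recs E F T P o μ hμ p (fun ω => (cl m (T (p ω)), g ω)) i
  rw [add_mul]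
  linarith

/-- the node of the level `i P + s`, given `F` -/
theorem ch_nd [Fintype R] [Nonempty R] (μ : Ω → ℝ) (hμ : ∀ ω, 0 ≤ μ ω) (p : Ω → Pt) (g : Ω → γ) (i s : ℕ)
    (hg : ∀ ω ω', μ ω ≠ 0 → μ ω' ≠ 0 → g ω = g ω' → F (p ω) = F (p ω'))
    (h0 : ∀ ω, μ ω ≠ 0 → 0 ≤ T (p ω)) (h1 : ∀ ω, μ ω ≠ 0 → T (p ω) < 1) :
    CH μ (fun ω => nd E F T P o i s (p ω)) g ≤ (i * P + s + i * Real.logb 2 (Fintype.card R)) * mass μ := by
  have h2 : CH μ (fun ω => nd E F T P o i s (p ω)) g ≤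
      CH μ (fun ω => (cl (i * P + s) (T (p ω)), recs E F T P o i (p ω))) g :=
    ch_mono μ hμ _ _ _ (fun ω ω' a b h h' => by
      rw [Prod.mk.injEq] at h
      simp only [nd, Prod.mk.injEq]
      exact ⟨hg ω ω' a b h', h.1, h.2⟩)
  have h3 := ch_cl_recs E F T P o μ hμ p g (i * P + s) i h0 h1
  push_cast at h3
  exact h2.trans h3

theorem ch_nd' [Fintype R] [Nonempty R] (μ : Ω → ℝ) (hμ : ∀ ω, 0 ≤ μ ω) (p : Ω → Pt) (g : Ω → γ) (i s : ℕ)
    (hg : ∀ ω ω', μ ω ≠ 0 → μ ω' ≠ 0 → g ω = g ω' → F (p ω) = F (p ω'))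
    (h0 : ∀ ω, μ ω ≠ 0 → |T (p ω)| ≤ 1) :
    CH μ (fun ω => nd E F T P o i s (p ω)) g ≤ (i * P + s + 2 + i * Real.logb 2 (Fintype.card R)) * mass μ := by
  have h2 : CH μ (fun ω => nd E F T P o i s (p ω)) g ≤
      CH μ (fun ω => (cl (i * P + s) (T (p ω)), recs E F T P o i (p ω))) g :=
    ch_mono μ hμ _ _ _ (fun ω ω' a b h h' => by
      rw [Prod.mk.injEq] at h
      simp only [nd, Prod.mk.injEq]
      exact ⟨hg ω ω' a b h', h.1, h.2⟩)
  have h3 := ch_cl_recs' E F T P o μ hμ p g (i * P + s) i h0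
  push_cast at h3
  exact h2.trans h3

/-- the records of all blocks below the level `m`: at most `(m / P) log |R|` bits, `m / P ≤ m / P` -/
theorem ch_recs_div [Fintype R] [Nonempty R] (μ : Ω → ℝ) (hμ : ∀ ω, 0 ≤ μ ω) (hm : mass μ = 1) (p : Ω → Pt)
    (g : Ω → γ) (m : ℕ) :
    CH μ (fun ω => recs E F T P o (m / P) (p ω)) g ≤ (m : ℝ) / P * Real.logb 2 (Fintype.card R) := by
  have h1 := ch_recs E F T P o μ hμ p g (m / P)
  rw [hm, mul_one] at h1
  refine h1.trans (mul_le_mul_of_nonneg_right Nat.cast_div_le ?_)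
  apply Real.logb_nonneg (by norm_num)
  exact_mod_cast Fintype.card_pos (α := R)

end

end Pool.Agent.Helper62.FW
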