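import Mathlib

/-! [ASY] Choice of constants: finitely many asymptotic inequalities at once, floors, powers of one half. -/

set_option autoImplicit false

namespace Pool.Agent.Helper62.FW

open Filter Topology

noncomputable section

/-! ### finitely many inequalities -/

/-- a natural number above finitely many reals -/
theorem big_fin {ι : Type*} [Finite ι] (c : ι → ℝ) : ∃ K : ℕ, 1 ≤ K ∧ ∀ i, c i ≤ K := by
  obtain ⟨B, hB⟩ := (Set.finite_range c).bddAbove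
  obtain ⟨K, hK⟩ := exists_nat_ge B
  refine ⟨K + 1, Nat.succ_le_succ (Nat.zero_le _), fun i => ?_⟩
  have h1 := hB (Set.mem_range_self i)
  push_cast
  linarith

/-- a positive real below finitely many positive reals -/
theorem small_fin0 {ι : Type*} [Finite ι] (e : ι → ℝ) (he : ∀ i, 0 < e i) : ∃ δ : ℝ, 0 < δ ∧ ∀ i, δ ≤ e i := by
  obtain ⟨K, hK1, hK⟩ := big_fin (fun i => (e i)⁻¹)
  have h0 : (0 : ℝ) < K := by exact_mod_cast hK1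
  refine ⟨(K : ℝ)⁻¹, inv_pos.mpr h0, fun i => ?_⟩
  rw [inv_le_comm₀ h0 (he i)]
  exact hK i

/-- a small positive real: `a i * δ ≤ e i` for finitely many `i` -/
theorem small_fin {ι : Type*} [Finite ι] (a e : ι → ℝ) (he : ∀ i, 0 < e i) {δ₀ : ℝ} (h0 : 0 < δ₀) :
    ∃ δ : ℝ, 0 < δ ∧ δ ≤ δ₀ ∧ ∀ i, a i * δ ≤ e i := by
  obtain ⟨δ, hδ, h⟩ := small_fin0 (fun i => e i / (|a i| + 1)) (fun i => by have := he i; positivity)
  refine ⟨min δ δ₀, lt_min hδ h0, min_le_right _ _, fun i => ?_⟩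
  have h1 := (min_le_left δ δ₀).trans (h i)
  have h2 : (0 : ℝ) < |a i| + 1 := by positivity
  rw [le_div_iff₀ h2] at h1
  have h3 : 0 < min δ δ₀ := lt_min hδ h0
  have h4 : a i * min δ δ₀ ≤ |a i| * min δ δ₀ := mul_le_mul_of_nonneg_right (le_abs_self _) h3.le
  linarith

/-- a large natural number: `c i ≤ e i * K` for finitely many `i` -/
theorem big_fin' {ι : Type*} [Finite ι] (c e : ι → ℝ) (he : ∀ i, 0 < e i) (K₀ : ℕ) :
    ∃ K : ℕ, K₀ ≤ K ∧ 1 ≤ K ∧ ∀ i, c i ≤ e i * K := by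
  obtain ⟨K, hK1, hK⟩ := big_fin (fun i => |c i| / e i)
  refine ⟨K₀ + K, Nat.le_add_right _ _, hK1.trans (Nat.le_add_left _ _), fun i => ?_⟩
  have h1 := hK i
  rw [div_le_iff₀ (he i)] at h1
  have h2 := le_abs_self (c i)
  have h3 : (0 : ℝ) ≤ e i * K₀ := mul_nonneg (he i).le (Nat.cast_nonneg _)
  push_cast
  linarith

/-- the same for all larger numbers -/
theorem big_all {ι : Type*} [Finite ι] (c e : ι → ℝ) (he : ∀ i, 0 < e i) (K₀ : ℕ) :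
    ∃ K : ℕ, K₀ ≤ K ∧ 1 ≤ K ∧ ∀ K' : ℕ, K ≤ K' → ∀ i, c i ≤ e i * K' := by
  obtain ⟨K, h0, h1, h⟩ := big_fin' c e he K₀
  refine ⟨K, h0, h1, fun K' hK' i => (h i).trans ?_⟩
  exact mul_le_mul_of_nonneg_left (by exact_mod_cast hK') (he i).le

/-- `c i / K ≤ e i` -/
theorem big_div {ι : Type*} [Finite ι] (c e : ι → ℝ) (he : ∀ i, 0 < e i) (K₀ : ℕ) :
    ∃ K : ℕ, K₀ ≤ K ∧ 1 ≤ K ∧ ∀ K' : ℕ, K ≤ K' → ∀ i, c i / K' ≤ e i := by
  obtain ⟨K, h0, h1, h⟩ := big_all c e he K₀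
  refine ⟨K, h0, h1, fun K' hK' i => ?_⟩
  have h2 : (0 : ℝ) < K' := by exact_mod_cast (h1.trans hK')
  rw [div_le_iff₀ h2]
  exact h K' hK' i

/-- `a / 2 ^ C ≤ e` -/
theorem pow_big {ι : Type*} [Finite ι] (a e : ι → ℝ) (he : ∀ i, 0 < e i) (C₀ : ℕ) :
    ∃ C : ℕ, C₀ ≤ C ∧ ∀ C' : ℕ, C ≤ C' → ∀ i, a i / 2 ^ C' ≤ e i := by
  obtain ⟨K, h0, h1, h⟩ := big_all a e he C₀
  refine ⟨K, h0, fun C' hC' i => ?_⟩
  have h3 : (C' : ℝ) ≤ 2 ^ C' := by exact_mod_cast (Nat.lt_two_pow_self (n := C')).le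
  rw [div_le_iff₀ (by positivity)]
  exact (h C' hC' i).trans (mul_le_mul_of_nonneg_left h3 (he i).le)

/-! ### logarithms -/

theorem log_small (b : ℝ) {e : ℝ} (he : 0 < e) : ∃ n₀ : ℕ, ∀ n : ℕ, n₀ ≤ n → b * Real.logb 2 (n + 2) ≤ e * n := by
  have hl : 0 < Real.log 2 := Real.log_pos (by norm_num)
  set c : ℝ := e * Real.log 2 / (2 * (|b| + 1)) with hc
  have hc0 : 0 < c := by positivity
  have h1 := Real.isLittleO_log_id_atTop.def hc0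
  obtain ⟨X, hX⟩ := Filter.eventually_atTop.mp h1
  obtain ⟨n₁, hn₁⟩ := exists_nat_ge X
  refine ⟨n₁ + 2, fun n hn => ?_⟩
  have hn1 : (n₁ : ℝ) + 2 ≤ n := by exact_mod_cast hn
  have hn0 : (0 : ℝ) ≤ n₁ := Nat.cast_nonneg _
  have h2 := hX ((n : ℝ) + 2) (by linarith)
  rw [Real.norm_eq_abs, Real.norm_eq_abs, id, abs_of_pos (show (0 : ℝ) < n + 2 by linarith)] at h2
  have h3 : Real.log ((n : ℝ) + 2) ≤ c * (2 * n) := (le_abs_self _).trans (h2.trans (by nlinarith))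
  have h4 : 0 ≤ Real.logb 2 ((n : ℝ) + 2) := Real.logb_nonneg (by norm_num) (by linarith)
  have h5 : Real.logb 2 ((n : ℝ) + 2) ≤ e * n / (|b| + 1) := by
    rw [Real.logb, div_le_iff₀ hl]
    refine h3.trans (le_of_eq ?_)
    rw [hc]
    field_simp
  have h6 : b * Real.logb 2 ((n : ℝ) + 2) ≤ (|b| + 1) * Real.logb 2 ((n : ℝ) + 2) :=
    mul_le_mul_of_nonneg_right (by linarith [le_abs_self b]) h4
  refine h6.trans ?_
  rw [le_div_iff₀ (by positivity)] at h5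
  linarith

/-- [ASY] finitely many linear inequalities with logarithmic errors -/
theorem asy_fin {ι : Type*} [Finite ι] (a b c e : ι → ℝ) (he : ∀ i, 0 < e i) {η₁ : ℝ} (h1 : 0 < η₁) :
    ∃ η₀ : ℝ, 0 < η₀ ∧ η₀ ≤ η₁ ∧ ∃ n₀ : ℕ, 1 ≤ n₀ ∧ ∀ η : ℝ, 0 ≤ η → η ≤ η₀ → ∀ n : ℕ, n₀ ≤ n → ∀ i,
      a i * (η * n) + b i * Real.logb 2 (n + 2) + c i ≤ e i * n := by
  obtain ⟨η₀, hη, hη1, hη2⟩ := small_fin (fun i => |a i|) (fun i => e i / 3) (fun i => by have := he i; positivity) h1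
  have hb : ∀ i, ∃ n₀ : ℕ, ∀ n : ℕ, n₀ ≤ n → b i * Real.logb 2 (n + 2) ≤ e i / 3 * n := fun i =>
    log_small (b i) (by have := he i; positivity)
  choose f hf using hb
  obtain ⟨N₁, -, hN₁⟩ := big_fin (fun i => (f i : ℝ))
  obtain ⟨N₂, h3, h4, hN₂⟩ := big_all c (fun i => e i / 3) (fun i => by have := he i; positivity) N₁
  refine ⟨η₀, hη, hη1, N₂, h4, fun η hη0 hη' n hn i => ?_⟩
  have hn0 : (0 : ℝ) ≤ n := Nat.cast_nonneg n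
  have g1 : a i * (η * n) ≤ e i / 3 * n := by
    have g2 : a i * η ≤ |a i| * η₀ :=
      (mul_le_mul_of_nonneg_right (le_abs_self _) hη0).trans (mul_le_mul_of_nonneg_left hη' (abs_nonneg _))
    calc a i * (η * n) = a i * η * n := by ring
      _ ≤ |a i| * η₀ * n := mul_le_mul_of_nonneg_right g2 hn0
      _ ≤ e i / 3 * n := mul_le_mul_of_nonneg_right (hη2 i) hn0
  have g3 : f i ≤ n := by
    have : f i ≤ N₁ := by exact_mod_cast hN₁ i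
    exact this.trans (h3.trans hn)
  have g4 := hf i n g3
  have g5 := hN₂ n hn i
  linarith

/-- one inequality -/
theorem asy_one (a b c : ℝ) {e : ℝ} (he : 0 < e) : ∃ η₀ : ℝ, 0 < η₀ ∧ ∃ n₀ : ℕ, ∀ η : ℝ, 0 ≤ η → η ≤ η₀ → ∀ n : ℕ,
    n₀ ≤ n → a * (η * n) + b * Real.logb 2 (n + 2) + c ≤ e * n := by
  obtain ⟨η₀, h0, -, n₀, -, h⟩ := asy_fin (ι := Unit) (fun _ => a) (fun _ => b) (fun _ => c) (fun _ => e)
    (fun _ => he) one_pos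
  exact ⟨η₀, h0, n₀, fun η h1 h2 n hn => h η h1 h2 n hn ()⟩

/-- finitely many inequalities without the small parameter -/
theorem asy_n {ι : Type*} [Finite ι] (b c e : ι → ℝ) (he : ∀ i, 0 < e i) (N₀ : ℕ) :
    ∃ n₀ : ℕ, N₀ ≤ n₀ ∧ 1 ≤ n₀ ∧ ∀ n : ℕ, n₀ ≤ n → ∀ i, b i * Real.logb 2 (n + 2) + c i ≤ e i * n := by
  obtain ⟨η₀, h0, -, n₀, h1, h⟩ := asy_fin (fun _ => 0) b c e he one_pos
  refine ⟨N₀ + n₀, Nat.le_add_right _ _, h1.trans (Nat.le_add_left _ _), fun n hn i => ?_⟩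
  have := h 0 le_rfl h0.le n ((Nat.le_add_left _ _).trans hn) i
  linarith

/-! ### powers against exponentials -/

/-- `C n ^ d 2 ^ (-δ n) ≤ e` for large `n` -/
theorem exp_small (C : ℝ) (d : ℕ) {δ e : ℝ} (hδ : 0 < δ) (he : 0 < e) :
    ∃ n₀ : ℕ, ∀ n : ℕ, n₀ ≤ n → C * (n : ℝ) ^ d * 2 ^ (-(δ * n)) ≤ e := by
  have h1 : Tendsto (fun n : ℕ => (n : ℝ) ^ d * (2 ^ (-δ) : ℝ) ^ n) atTop (𝓝 0) :=
    tendsto_pow_const_mul_const_pow_of_abs_lt_one d (by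
      rw [abs_of_pos (by positivity)]
      exact Real.rpow_lt_one_of_one_lt_of_neg (by norm_num) (by linarith))
  have h2 := h1.const_mul C
  rw [mul_zero] at h2
  obtain ⟨n₀, hn₀⟩ := Filter.eventually_atTop.mp (h2.eventually (gt_mem_nhds he))
  refine ⟨n₀, fun n hn => ?_⟩
  have h3 := hn₀ n hn
  have e1 : (2 : ℝ) ^ (-(δ * n)) = (2 ^ (-δ) : ℝ) ^ n := by
    rw [← Real.rpow_natCast, ← Real.rpow_mul (by norm_num)]
    congr 1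
    ring
  rw [e1, mul_assoc]
  exact h3.le

/-! ### floors -/

theorem floor_le' {δ : ℝ} (hδ : 0 ≤ δ) (n : ℕ) : ((⌊δ * n⌋₊ : ℕ) : ℝ) ≤ δ * n :=
  Nat.floor_le (mul_nonneg hδ (Nat.cast_nonneg n))

theorem floor_ge' (δ : ℝ) (n : ℕ) : δ * n - 1 ≤ ((⌊δ * n⌋₊ : ℕ) : ℝ) := (Nat.sub_one_lt_floor _).le

theorem floor_half {δ : ℝ} {n : ℕ} (hn : 2 ≤ δ * n) : δ * n / 2 ≤ ((⌊δ * n⌋₊ : ℕ) : ℝ) := by
  have := floor_ge' δ n
  linarith

theorem floor_half_ev {δ : ℝ} (hδ : 0 < δ) : ∃ n₀ : ℕ, ∀ n : ℕ, n₀ ≤ n → δ * n / 2 ≤ ((⌊δ * n⌋₊ : ℕ) : ℝ) := by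
  obtain ⟨n₀, -, -, h⟩ := big_all (ι := Unit) (fun _ => 2) (fun _ => δ) (fun _ => hδ) 0
  exact ⟨n₀, fun n hn => floor_half (h n hn ())⟩

theorem ceil_le' {δ : ℝ} (hδ : 0 ≤ δ) (n : ℕ) : ((⌈δ * n⌉₊ : ℕ) : ℝ) ≤ δ * n + 1 :=
  (Nat.ceil_lt_add_one (mul_nonneg hδ (Nat.cast_nonneg n))).le

theorem ceil_ge' (δ : ℝ) (n : ℕ) : δ * n ≤ ((⌈δ * n⌉₊ : ℕ) : ℝ) := Nat.le_ceil _

theorem floor_le_n {δ : ℝ} (hδ : δ ≤ 1) (n : ℕ) : ⌊δ * n⌋₊ ≤ n := by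
  apply Nat.floor_le_of_le
  exact mul_le_of_le_one_left (Nat.cast_nonneg n) hδ

theorem ceil_le_n {δ : ℝ} (hδ : δ ≤ 1) (n : ℕ) : ⌈δ * n⌉₊ ≤ n := by
  apply Nat.ceil_le.mpr
  exact mul_le_of_le_one_left (Nat.cast_nonneg n) hδ

/-- quotients of natural numbers -/
theorem ndiv_le (n R : ℕ) : ((n / R : ℕ) : ℝ) ≤ n / R := Nat.cast_div_le

theorem ndiv_ge (n : ℕ) {R : ℕ} (hR : 0 < R) : (n : ℝ) / R - 1 ≤ ((n / R : ℕ) : ℝ) := by
  have h1 : n < R * (n / R + 1) := Nat.lt_mul_div_succ n hR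
  have h2 : (n : ℝ) < R * (((n / R : ℕ) : ℝ) + 1) := by exact_mod_cast h1
  have h3 : (0 : ℝ) < R := by exact_mod_cast hR
  have h4 : (n : ℝ) / R < ((n / R : ℕ) : ℝ) + 1 := by
    rw [div_lt_iff₀ h3, mul_comm]
    exact h2
  linarith

theorem ndiv_mul_le (n R : ℕ) : n / R * R ≤ n := Nat.div_mul_le_self n R

/-! ### powers of one half -/

theorem half_anti {m n : ℕ} (h : m ≤ n) : (1 / 2 : ℝ) ^ n ≤ (1 / 2) ^ m :=
  pow_le_pow_of_le_one (by norm_num) (by norm_num) h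

theorem half_div (n k : ℕ) : (1 / 2 : ℝ) ^ n ≤ (1 / 2) ^ (n / k) := half_anti (Nat.div_le_self n k)

theorem half_rpow (n : ℕ) : (1 / 2 : ℝ) ^ n = 2 ^ (-(n : ℝ)) := by
  rw [Real.rpow_neg (by norm_num), Real.rpow_natCast, one_div, inv_pow]

theorem two_rpow_anti {x y : ℝ} (h : x ≤ y) : (2 : ℝ) ^ (-y) ≤ 2 ^ (-x) :=
  Real.rpow_le_rpow_of_exponent_le (by norm_num) (by linarith)

theorem half_floor {δ : ℝ} (n : ℕ) : (1 / 2 : ℝ) ^ ⌊δ * n⌋₊ ≤ 2 * 2 ^ (-(δ * n)) := by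
  rw [half_rpow]
  have h1 := floor_ge' δ n
  have e1 : (2 : ℝ) * 2 ^ (-(δ * n)) = 2 ^ (-(δ * n - 1)) := by
    rw [neg_sub, sub_eq_add_neg, Real.rpow_add (by norm_num), Real.rpow_one]
  rw [e1]
  exact two_rpow_anti h1

theorem half_ceil {δ : ℝ} (n : ℕ) : (1 / 2 : ℝ) ^ ⌈δ * n⌉₊ ≤ 2 ^ (-(δ * n)) := by
  rw [half_rpow]
  exact two_rpow_anti (ceil_ge' δ n)

theorem le_half_floor {δ : ℝ} (hδ : 0 ≤ δ) (n : ℕ) : (2 : ℝ) ^ (-(δ * n)) ≤ (1 / 2) ^ ⌊δ * n⌋₊ := by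
  rw [half_rpow]
  exact two_rpow_anti (floor_le' hδ n)

theorem le_half_ceil {δ : ℝ} (hδ : 0 ≤ δ) (n : ℕ) : (2 : ℝ) ^ (-(δ * n)) / 2 ≤ (1 / 2) ^ ⌈δ * n⌉₊ := by
  rw [half_rpow]
  have h1 := ceil_le' hδ n
  have e1 : (2 : ℝ) ^ (-(δ * n)) / 2 = 2 ^ (-(δ * n + 1)) := by
    rw [neg_add, Real.rpow_add (by norm_num), Real.rpow_neg_one]
    rfl
  rw [e1]
  exact two_rpow_anti h1

theorem two_pow_rpow (n : ℕ) (x : ℝ) : (2 : ℝ) ^ (n : ℝ) * 2 ^ x = 2 ^ (n + x) :=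
  (Real.rpow_add (by norm_num) _ _).symm

theorem logb_half_pow (n : ℕ) : Real.logb 2 ((1 / 2 : ℝ) ^ n) = -n := by
  rw [half_rpow, Real.logb_rpow (by norm_num) (by norm_num)]

theorem logb_two_pow (n : ℕ) : Real.logb 2 ((2 : ℝ) ^ n) = n := by
  rw [← Real.rpow_natCast, Real.logb_rpow (by norm_num) (by norm_num)]

/-- logarithm of a polynomial expression -/
theorem logb_poly {C : ℝ} (hC : 0 < C) (d n : ℕ) :
    Real.logb 2 (C * ((n : ℝ) + 2) ^ d) = Real.logb 2 C + d * Real.logb 2 (n + 2) := by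
  have h1 : (0 : ℝ) < (n : ℝ) + 2 := by positivity
  rw [Real.logb_mul hC.ne' (by positivity), Real.logb_pow]

/-- Markov: a nonnegative average which is at most `ε ^ 2` exceeds `ε` with probability at most `ε` -/
theorem sq_div {ε x : ℝ} (hε : 0 < ε) (h : x ≤ ε ^ 2) : x / ε ≤ ε := by
  rw [div_le_iff₀ hε]
  nlinarith

end

end Pool.Agent.Helper62.FW
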